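import Pool.Agent.Helper62.NT.Goals

/-!
PROJECT NT (MP_8ff381_an), packet NT-FZU: the weights of the far nodes.
-/

set_option autoImplicit false

noncomputable section

namespace Pool.Agent.Helper58.NT.FZU

open Pool.Agent.Helper62.NT MeasureTheory

/-- Disjoint intervals in an interval. -/
theorem sum_len {ι : Type} (F : Finset ι) (l : ι → ℝ) (d : ι → ℝ) (g e : ℝ) (hge : g ≤ e)
    (hd : ∀ c ∈ F, 0 ≤ d c) (hl : ∀ c ∈ F, g ≤ l c ∧ l c + d c ≤ e)
    (hdis : ∀ c ∈ F, ∀ c' ∈ F, c ≠ c' → ∀ t, l c ≤ t → t < l c + d c → l c' ≤ t →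
      ¬ t < l c' + d c') : ∑ c ∈ F, d c ≤ e - g := by
  have h1 : volume (⋃ c ∈ F, Set.Ico (l c) (l c + d c)) = ∑ c ∈ F, ENNReal.ofReal (d c) := by
    rw [measure_biUnion_finset]
    · refine Finset.sum_congr rfl fun c _ => ?_
      rw [Real.volume_Ico, add_sub_cancel_left]
    · intro c hc c' hc' hne
      rw [Function.onFun, Set.disjoint_left]
      intro t ht ht'
      exact hdis c hc c' hc' hne t ht.1 ht.2 ht'.1 ht'.2
    · exact fun c _ => measurableSet_Ico
  have h2 : volume (⋃ c ∈ F, Set.Ico (l c) (l c + d c)) ≤ ENNReal.ofReal (e - g) := by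
    rw [← Real.volume_Icc]
    refine measure_mono (Set.iUnion₂_subset fun c hc => ?_)
    intro t ht
    have := hl c hc
    exact ⟨le_trans this.1 ht.1, le_trans ht.2.le this.2⟩
  rw [h1, ← ENNReal.ofReal_sum_of_nonneg hd] at h2
  exact (ENNReal.ofReal_le_ofReal_iff (by linarith)).mp h2

theorem s_pos {H : Type} [MetricSpace H] (D : CD H) (n : ℕ) : 0 < D.s n := by
  have h1 : (0 : ℝ) < D.B := by
    have := D.hB
    exact_mod_cast (by omega : 0 < D.B)
  exact div_pos D.hΔ (pow_pos h1 n)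

theorem s_succ {H : Type} [MetricSpace H] (D : CD H) (n : ℕ) : D.s n = D.B * D.s (n + 1) := by
  have h1 : (D.B : ℝ) ≠ 0 := by
    have := D.hB
    exact_mod_cast (by omega : D.B ≠ 0)
  unfold CD.s
  rw [pow_succ]
  field_simp

theorem s_anti {H : Type} [MetricSpace H] (D : CD H) {m n : ℕ} (h : m ≤ n) : D.s n ≤ D.s m := by
  induction n, h using Nat.le_induction with
  | base => exact le_rfl
  | succ n _ ih =>
    refine le_trans ?_ ih
    rw [s_succ D n]
    have h1 : (1 : ℝ) ≤ D.B := by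
      have := D.hB
      exact_mod_cast (by omega : 1 ≤ D.B)
    have := s_pos D (n + 1)
    nlinarith

theorem t (hR : S_RTB) : S_FZU := by
  intro H _ D A x y F hx hF
  obtain ⟨r1, r2, r3, -, -, -, -, -, -, r10, -⟩ := hR H D.R
  obtain ⟨g, hg⟩ : ∃ g, g = D.R.gp x y := ⟨_, rfl⟩
  have hB : (20 : ℝ) ≤ D.B := by exact_mod_cast D.hB
  have hge : g ≤ D.R.dep x := by rw [hg]; exact D.R.gp_le x y
  have hg0 : 0 ≤ g := by rw [hg]; exact D.R.gp_nonneg x y
  -- the node is on the path to `x`, above the depth `g`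
  have f1 : ∀ c ∈ F, D.R.res x (D.R.dep c.2) = c.2 ∧ D.R.dep c.2 ≤ D.R.dep x ∧
      g < D.R.dep c.2 := by
    intro c hc
    obtain ⟨-, ⟨h1, h2⟩, h3⟩ := hF c hc
    refine ⟨h2, h1, ?_⟩
    by_contra h4
    apply h3
    have h5 : D.R.dep c.2 ≤ D.R.gp x y := by rw [← hg]; exact le_of_not_gt h4
    have h6 : D.R.dep c.2 ≤ D.R.dep y := le_trans h5 (r2 x y)
    refine ⟨h6, ?_⟩
    rw [← (D.R.res_eq x y (D.R.dep c.2) (r1 c.2).1 h1 h6).mpr h5]
    exact h2
  -- the length of the interval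
  have f2 : ∀ c ∈ F, D.R.dep c.2 + D.s c.1 / 16 ≤ D.R.dep x := by
    intro c hc
    obtain ⟨⟨-, -, h3, -⟩, -, -⟩ := hF c hc
    obtain ⟨h4, h5, h6⟩ := f1 c hc
    have h7 : Metric.infDist c.2 A ≤ dist c.2 x := Metric.infDist_le_dist_of_mem hx
    have h8 := (r3 x (D.R.dep c.2) (r1 c.2).1 h5).2.2
    rw [h4, dist_comm] at h8
    have := s_pos D c.1
    linarith
  -- the distance to `A` on the interval
  have f3 : ∀ c ∈ F, ∀ t, D.R.dep c.2 ≤ t → t < D.R.dep c.2 + D.s c.1 / 16 →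
      D.s c.1 / 16 < Metric.infDist (D.R.res x t) A ∧
      Metric.infDist (D.R.res x t) A ≤ (D.B / 8 + 1 / 16) * D.s c.1 := by
    intro c hc t ht1 ht2
    obtain ⟨⟨h1, -, h3, h3'⟩, -, -⟩ := hF c hc
    obtain ⟨h4, h5, h6⟩ := f1 c hc
    have h7 := f2 c hc
    have h8 := r10 x (D.R.dep c.2) t (r1 c.2).1 ht1 (by linarith)
    rw [h4] at h8
    have h9 : Metric.infDist c.2 A ≤ Metric.infDist (D.R.res x t) A + dist c.2 (D.R.res x t) :=
      Metric.infDist_le_infDist_add_dist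
    have h10 : Metric.infDist (D.R.res x t) A ≤ Metric.infDist c.2 A + dist (D.R.res x t) c.2 :=
      Metric.infDist_le_infDist_add_dist
    rw [dist_comm] at h10
    have h11 := s_succ D (c.1 - 1)
    rw [show c.1 - 1 + 1 = c.1 by omega] at h11
    rw [h11] at h3'
    constructor
    · linarith
    · linarith
  -- intervals of scales of the same parity are disjoint
  have f4 : ∀ c ∈ F, ∀ c' ∈ F, c.1 ≤ c'.1 → c.1 % 2 = c'.1 % 2 → c ≠ c' → ∀ t,
      D.R.dep c.2 ≤ t → t < D.R.dep c.2 + D.s c.1 / 16 → D.R.dep c'.2 ≤ t →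
      ¬ t < D.R.dep c'.2 + D.s c'.1 / 16 := by
    intro c hc c' hc' hle hpar hne t h1 h2 h3 h4
    rcases Nat.lt_or_ge c.1 c'.1 with hlt | hge'
    · have h5 := (f3 c hc t h1 h2).1
      have h6 := (f3 c' hc' t h3 h4).2
      have h7 : D.s (c.1 + 2) ≥ D.s c'.1 := s_anti D (by omega)
      have h8 := s_succ D c.1
      have h9 := s_succ D (c.1 + 1)
      have h10 := s_pos D (c.1 + 2)
      rw [show c.1 + 1 + 1 = c.1 + 2 by ring] at h9
      rw [h9] at h8
      have h11 : (D.B / 8 + 1 / 16) * D.s c'.1 ≤ (D.B / 8 + 1 / 16) * D.s (c.1 + 2) := by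
        apply mul_le_mul_of_nonneg_left h7; positivity
      rw [h8] at h5
      have h12 : (D.B : ℝ) * (D.B * D.s (c.1 + 2)) / 16 < (D.B / 8 + 1 / 16) * D.s (c.1 + 2) := by
        linarith
      have h13 : ((D.B : ℝ) * D.B / 16) * D.s (c.1 + 2) < (D.B / 8 + 1 / 16) * D.s (c.1 + 2) := by
        linarith
      have h14 := lt_of_mul_lt_mul_right h13 h10.le
      nlinarith
    · have he : c.1 = c'.1 := le_antisymm hle hge'
      obtain ⟨⟨-, ⟨k, -, hk⟩, -, -⟩, -, -⟩ := hF c hc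
      obtain ⟨⟨-, ⟨k', -, hk'⟩, -, -⟩, -, -⟩ := hF c' hc'
      have hs := s_pos D c.1
      rw [← he] at hk' h4
      have h5 : k = k' := by
        by_contra hkk
        rcases Nat.lt_or_gt_of_ne hkk with h6 | h6
        · have h7 : (k : ℝ) + 1 ≤ k' := by exact_mod_cast h6
          nlinarith
        · have h7 : (k' : ℝ) + 1 ≤ k := by exact_mod_cast h6
          nlinarith
      apply hne
      refine Prod.ext he ?_
      rw [← (f1 c hc).1, ← (f1 c' hc').1, hk, hk', h5]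
  have f5 : ∀ i : ℕ, ∑ c ∈ F.filter (fun c => c.1 % 2 = i), D.s c.1 / 16 ≤ D.R.dep x - g := by
    intro i
    refine sum_len _ (fun c : ℕ × H => D.R.dep c.2) (fun c : ℕ × H => D.s c.1 / 16) g (D.R.dep x) hge
      ?_ ?_ ?_
    · intro c _
      have := s_pos D c.1
      positivity
    · intro c hc
      rw [Finset.mem_filter] at hc
      exact ⟨(f1 c hc.1).2.2.le, f2 c hc.1⟩
    · intro c hc c' hc' hne t h1 h2 h3 h4
      rw [Finset.mem_filter] at hc hc'
      rcases le_total c.1 c'.1 with h5 | h5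
      · exact f4 c hc.1 c' hc'.1 h5 (by rw [hc.2, hc'.2]) hne t h1 h2 h3 h4
      · exact f4 c' hc'.1 c hc.1 h5 (by rw [hc.2, hc'.2]) (Ne.symm hne) t h3 h4 h1 h2
  have f6 : ∑ c ∈ F, D.s c.1 / 16 = ∑ c ∈ F.filter (fun c => c.1 % 2 = 0), D.s c.1 / 16 +
      ∑ c ∈ F.filter (fun c => c.1 % 2 = 1), D.s c.1 / 16 := by
    rw [← Finset.sum_filter_add_sum_filter_not F (fun c => c.1 % 2 = 0)]
    congr 1
    refine Finset.sum_congr ?_ fun _ _ => rfl
    ext c
    simp only [Finset.mem_filter]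
    constructor
    · rintro ⟨h1, h2⟩; exact ⟨h1, by omega⟩
    · rintro ⟨h1, h2⟩; exact ⟨h1, by omega⟩
  rw [← Finset.sum_div] at f6
  have := f5 0
  have := f5 1
  rw [← hg]
  linarith

end Pool.Agent.Helper58.NT.FZU
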